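import Mathlib
set_option autoImplicit false

namespace Pool.Agent.TH297.PG

/-- A finite system of labels with weighted derivations: if every derivation of positive weight has
weight one or is obtained from smaller ones by adding weights, then minimal positive weights are at
most `2 ^ (number of labels)`. -/
theorem gap {ι : Type} [Fintype ι] (P : ι → ℕ → ℕ → Prop)
    (hP : ∀ a k v, P a k v → 0 < v → v = 1 ∨
      (∃ a' k' v', P a' k' v' ∧ 0 < v' ∧ v = v' + 1 ∧
        ∀ k'' v'', P a' k'' v'' → ∃ k3, P a k3 (v'' + 1)) ∨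
      (∃ a1 k1 v1 a2 k2 v2, P a1 k1 v1 ∧ P a2 k2 v2 ∧ v = v1 + v2 ∧ k1 < k ∧ k2 < k ∧
        ∀ k1' v1' k2' v2', P a1 k1' v1' → P a2 k2' v2' → ∃ k', P a k' (v1' + v2')))
    (a : ι) (k v : ℕ) (h : P a k v) (hv : 0 < v) :
    ∃ k' v', P a k' v' ∧ 0 < v' ∧ v' ≤ 2 ^ Fintype.card ι := by
  classical
  let pos : ι → Prop := fun a => ∃ v, 0 < v ∧ ∃ k, P a k v
  let m : ι → ℕ := fun a => if h : pos a then Nat.find h else 0
  have m_spec : ∀ a, pos a → 0 < m a ∧ ∃ k, P a k (m a) := by
    intro a ha
    have h1 : m a = Nat.find ha := dif_pos ha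
    rw [h1]
    exact Nat.find_spec ha
  have m_le : ∀ a k v, P a k v → 0 < v → m a ≤ v := by
    intro a k v h hv
    have ha : pos a := ⟨v, hv, k, h⟩
    have h1 : m a = Nat.find ha := dif_pos ha
    rw [h1]
    exact Nat.find_min' ha ⟨hv, k, h⟩
  let S : Finset ℕ := (Finset.univ.filter pos).image m
  have hS : ∀ v ∈ S, v = 1 ∨ ∃ u ∈ S, u < v ∧ v ≤ 2 * u := by
    intro v hvS
    by_contra hcon
    push Not at hcon
    obtain ⟨hv1, hcon⟩ := hcon
    -- choose a derivation of minimal size achieving v as a minimal value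
    have hex : ∃ k, ∃ a, pos a ∧ m a = v ∧ P a k v := by
      obtain ⟨a, ha, rfl⟩ := Finset.mem_image.mp hvS
      have ha' : pos a := (Finset.mem_filter.mp ha).2
      obtain ⟨_, k, hk⟩ := m_spec a ha'
      exact ⟨k, a, ha', rfl, hk⟩
    obtain ⟨a, ha, hma, hPa⟩ := Nat.find_spec hex
    have hmin := fun k (hk : k < Nat.find hex) => Nat.find_min hex hk
    have hv0 : 0 < v := by rw [← hma]; exact (m_spec a ha).1
    have memS : ∀ b, pos b → m b ∈ S := fun b hb =>
      Finset.mem_image.mpr ⟨b, Finset.mem_filter.mpr ⟨Finset.mem_univ _, hb⟩, rfl⟩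
    rcases hP a _ v hPa hv0 with h1 | ⟨a', k', v', h1, h2, h3, h4⟩ |
      ⟨a1, k1, v1, a2, k2, v2, h1, h2, h3, h4, h5, h6⟩
    · exact hv1 h1
    · have hp : pos a' := ⟨v', h2, k', h1⟩
      have h5 := m_le a' k' v' h1 h2
      obtain ⟨h6, kk, hk⟩ := m_spec a' hp
      obtain ⟨k3, h9⟩ := h4 kk (m a') hk
      have h10 := m_le a k3 _ h9 (by omega)
      have h7 : m a' < v := by omega
      have h8 := hcon (m a') (memS a' hp) h7
      omega
    · rcases Nat.eq_zero_or_pos v1 with hz1 | hp1
      · -- v = v2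
        have hv2 : v2 = v := by omega
        subst hz1
        have hp : pos a2 := ⟨v2, by omega, k2, h2⟩
        have hle := m_le a2 k2 v2 h2 (by omega)
        have h7 := m_spec a2 hp
        obtain ⟨h7a, kk, h7b⟩ := h7
        obtain ⟨k3, h8⟩ := h6 k1 0 kk (m a2) h1 h7b
        have h9 := m_le a k3 (0 + m a2) h8 (by omega)
        have h10 : m a2 = v := by omega
        exact hmin k2 h5 ⟨a2, hp, h10, by rw [hv2] at h2; exact h2⟩
      · rcases Nat.eq_zero_or_pos v2 with hz2 | hp2
        · have hv2 : v1 = v := by omega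
          subst hz2
          have hp : pos a1 := ⟨v1, by omega, k1, h1⟩
          have hle := m_le a1 k1 v1 h1 (by omega)
          have h7 := m_spec a1 hp
          obtain ⟨h7a, kk, h7b⟩ := h7
          obtain ⟨k3, h8⟩ := h6 kk (m a1) k2 0 h7b h2
          have h9 := m_le a k3 (m a1 + 0) h8 (by omega)
          have h10 : m a1 = v := by omega
          exact hmin k1 h4 ⟨a1, hp, h10, by rw [hv2] at h1; exact h1⟩
        · have q1 : pos a1 := ⟨v1, hp1, k1, h1⟩
          have q2 : pos a2 := ⟨v2, hp2, k2, h2⟩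
          have l1 := m_le a1 k1 v1 h1 hp1
          have l2 := m_le a2 k2 v2 h2 hp2
          obtain ⟨p1, kk1, s1⟩ := m_spec a1 q1
          obtain ⟨p2, kk2, s2⟩ := m_spec a2 q2
          obtain ⟨k3, h8⟩ := h6 kk1 (m a1) kk2 (m a2) s1 s2
          have h9 := m_le a k3 _ h8 (by omega)
          rcases le_total (m a1) (m a2) with hle | hle
          · have := hcon (m a2) (memS a2 q2) (by omega)
            omega
          · have := hcon (m a1) (memS a1 q1) (by omega)
            omega
  have hb : ∀ v, v ∈ S → v ≤ 2 ^ (S.filter (fun u => u < v)).card := by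
    intro v
    induction v using Nat.strong_induction_on with
    | _ v ih =>
      intro hvS
      rcases hS v hvS with rfl | ⟨u, hu, huv, hle⟩
      · exact Nat.one_le_two_pow
      · have h1 := ih u huv hu
        have h2 : (S.filter (fun x => x < u)).card + 1 ≤ (S.filter (fun x => x < v)).card := by
          have h3 : insert u (S.filter (fun x => x < u)) ⊆ S.filter (fun x => x < v) := by
            intro x hx
            rcases Finset.mem_insert.mp hx with rfl | hx
            · exact Finset.mem_filter.mpr ⟨hu, huv⟩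
            · have := Finset.mem_filter.mp hx
              exact Finset.mem_filter.mpr ⟨this.1, this.2.trans huv⟩
          have h4 : u ∉ S.filter (fun x => x < u) := by simp
          rw [← Finset.card_insert_of_notMem h4]
          exact Finset.card_le_card h3
        calc v ≤ 2 * u := hle
          _ ≤ 2 * 2 ^ (S.filter (fun x => x < u)).card := Nat.mul_le_mul_left 2 h1
          _ = 2 ^ ((S.filter (fun x => x < u)).card + 1) := by rw [pow_succ]; ring
          _ ≤ _ := Nat.pow_le_pow_right (by norm_num) h2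
  have ha : pos a := ⟨v, hv, k, h⟩
  obtain ⟨h1, k', h2⟩ := m_spec a ha
  refine ⟨k', m a, h2, h1, ?_⟩
  refine (hb (m a) (Finset.mem_image.mpr ⟨a, Finset.mem_filter.mpr ⟨Finset.mem_univ _, ha⟩, rfl⟩)).trans
    (Nat.pow_le_pow_right (by norm_num) ?_)
  calc (S.filter (fun u => u < m a)).card ≤ S.card := Finset.card_filter_le _ _
    _ ≤ (Finset.univ.filter pos).card := Finset.card_image_le
    _ ≤ Fintype.card ι := Finset.card_filter_le _ _

end Pool.Agent.TH297.PG
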