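import Mathlib
import Pool.Agent.TH297.PG.A
set_option autoImplicit false

namespace Pool.Agent.TH297.PG

/-- Abstract unary context-free systems. -/
structure US (ι : Type) where
  R0 : ι → Prop
  R1 : ι → ι → Prop
  R2 : ι → ι → ι → Prop

variable {ι : Type} (S : US ι)

/-- Derivations with size and weight. -/
inductive Der : ℕ → ι → ℕ → Prop
  | zero (a : ι) : S.R0 a → Der 0 a 0
  | one (a b : ι) (k v : ℕ) : S.R1 a b → Der k b v → Der (k + 1) a (v + 1)
  | two (a b c : ι) (k1 k2 v1 v2 : ℕ) : S.R2 a b c → Der k1 b v1 → Der k2 c v2 →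
      Der (k1 + k2 + 1) a (v1 + v2)

/-- Derivations with a hole labelled `t`. -/
inductive Cx (t : ι) : ℕ → ι → ℕ → Prop
  | hole : Cx t 0 t 0
  | one (a b : ι) (k v : ℕ) : S.R1 a b → Cx t k b v → Cx t (k + 1) a (v + 1)
  | left (a b c : ι) (k1 k2 v1 v2 : ℕ) : S.R2 a b c → Cx t k1 b v1 → Der S k2 c v2 →
      Cx t (k1 + k2 + 1) a (v1 + v2)
  | right (a b c : ι) (k1 k2 v1 v2 : ℕ) : S.R2 a b c → Der S k1 b v1 → Cx t k2 c v2 →
      Cx t (k1 + k2 + 1) a (v1 + v2)

variable {S}

theorem Cx.der {t a : ι} {k v : ℕ} (h : Cx S t k a v) {k' v' : ℕ} (h' : Der S k' t v') :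
    ∃ k'', Der S k'' a (v + v') := by
  induction h with
  | hole => exact ⟨k', by simpa using h'⟩
  | one a b k v hr _ ih =>
    obtain ⟨k'', ih⟩ := ih
    exact ⟨_, by rw [Nat.add_right_comm]; exact Der.one a b k'' _ hr ih⟩
  | left a b c k1 k2 v1 v2 hr _ h2 ih =>
    obtain ⟨k'', ih⟩ := ih
    exact ⟨_, by rw [Nat.add_right_comm]; exact Der.two a b c _ _ _ _ hr ih h2⟩
  | right a b c k1 k2 v1 v2 hr h1 _ ih =>
    obtain ⟨k'', ih⟩ := ih
    exact ⟨_, by rw [Nat.add_assoc]; exact Der.two a b c _ _ _ _ hr h1 ih⟩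

theorem Cx.trans {t a : ι} {k v : ℕ} (h : Cx S t k a v) {u : ι} {k' v' : ℕ}
    (h' : Cx S u k' t v') : ∃ k'', Cx S u k'' a (v + v') := by
  induction h with
  | hole => exact ⟨k', by simpa using h'⟩
  | one a b k v hr _ ih =>
    obtain ⟨k'', ih⟩ := ih
    exact ⟨_, by rw [Nat.add_right_comm]; exact Cx.one a b k'' _ hr ih⟩
  | left a b c k1 k2 v1 v2 hr _ h2 ih =>
    obtain ⟨k'', ih⟩ := ih
    exact ⟨_, by rw [Nat.add_right_comm]; exact Cx.left a b c _ _ _ _ hr ih h2⟩
  | right a b c k1 k2 v1 v2 hr h1 _ ih =>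
    obtain ⟨k'', ih⟩ := ih
    exact ⟨_, by rw [Nat.add_assoc]; exact Cx.right a b c _ _ _ _ hr h1 ih⟩

theorem Cx.iter {a : ι} {k c : ℕ} (h : Cx S a k a c) (j : ℕ) : ∃ k', Cx S a k' a (j * c) := by
  induction j with
  | zero => exact ⟨0, by simpa using Cx.hole⟩
  | succ j ih =>
    obtain ⟨k', ih⟩ := ih
    obtain ⟨k'', h2⟩ := ih.trans h
    exact ⟨k'', by rw [Nat.succ_mul]; exact h2⟩

variable (S)

/-- Labels with a loop of positive weight. -/
def Good (a : ι) : Prop := ∃ k v, 0 < v ∧ Cx S a k a v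

/-- Reachable labels. -/
def Rch (a : ι) : Set ι := {t | ∃ k v, Cx S t k a v}

variable {S}

theorem Rch.self (a : ι) : a ∈ Rch S a := ⟨0, 0, Cx.hole⟩

theorem Rch.sub_of {a b : ι} (h : b ∈ Rch S a) : Rch S b ⊆ Rch S a := by
  rintro t ⟨k, v, ht⟩
  obtain ⟨k', v', hb⟩ := h
  obtain ⟨k'', h''⟩ := hb.trans ht
  exact ⟨_, _, h''⟩

theorem loop_weight [Fintype ι] {a : ι} (h : Good S a) :
    ∃ k v, 0 < v ∧ v ≤ 2 ^ (2 * Fintype.card ι) ∧ Cx S a k a v := by
  obtain ⟨k, v, hv, hC⟩ := h
  let P : ι ⊕ ι → ℕ → ℕ → Prop := fun x k v =>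
    match x with
    | Sum.inl b => Cx S a k b v
    | Sum.inr b => Der S k b v
  have key := gap P (by
    rintro (b | b) k v h hv
    · have h' : Cx S a k b v := h
      cases h' with
      | hole => exact absurd hv (lt_irrefl 0)
      | one _ c k v hr h2 =>
        rcases Nat.eq_zero_or_pos v with rfl | hp
        · exact Or.inl rfl
        · exact Or.inr (Or.inl ⟨Sum.inl c, k, v, h2, hp, rfl,
            fun k'' v'' h3 => ⟨_, Cx.one _ _ _ _ hr h3⟩⟩)
      | left _ c d k1 k2 v1 v2 hr h1 h2 =>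
        exact Or.inr (Or.inr ⟨Sum.inl c, k1, v1, Sum.inr d, k2, v2, h1, h2, rfl, by omega, by omega,
          fun _ _ _ _ h3 h4 => ⟨_, Cx.left _ _ _ _ _ _ _ hr h3 h4⟩⟩)
      | right _ c d k1 k2 v1 v2 hr h1 h2 =>
        exact Or.inr (Or.inr ⟨Sum.inr c, k1, v1, Sum.inl d, k2, v2, h1, h2, rfl, by omega, by omega,
          fun _ _ _ _ h3 h4 => ⟨_, Cx.right _ _ _ _ _ _ _ hr h3 h4⟩⟩)
    · have h' : Der S k b v := h
      cases h' with
      | zero _ _ => exact absurd hv (lt_irrefl 0)
      | one _ c k v hr h2 =>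
        rcases Nat.eq_zero_or_pos v with rfl | hp
        · exact Or.inl rfl
        · exact Or.inr (Or.inl ⟨Sum.inr c, k, v, h2, hp, rfl,
            fun k'' v'' h3 => ⟨_, Der.one _ _ _ _ hr h3⟩⟩)
      | two _ c d k1 k2 v1 v2 hr h1 h2 =>
        exact Or.inr (Or.inr ⟨Sum.inr c, k1, v1, Sum.inr d, k2, v2, h1, h2, rfl, by omega, by omega,
          fun _ _ _ _ h3 h4 => ⟨_, Der.two _ _ _ _ _ _ _ hr h3 h4⟩⟩))
    (Sum.inl a) k v hC hv
  obtain ⟨k', v', h1, h2, h3⟩ := key
  refine ⟨k', v', h2, ?_, h1⟩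
  rw [Fintype.card_sum] at h3
  rwa [two_mul]

theorem dichotomy [Finite ι] {k : ℕ} {a : ι} {v : ℕ} (h : Der S k a v) :
    v < 2 ^ (Rch S a).ncard ∨
    ∃ l v1 v2 k1 k2, v = v1 + v2 ∧ Cx S l k1 a v1 ∧ Der S k2 l v2 ∧ Good S l := by
  induction h with
  | zero a _ => exact Or.inl (by positivity)
  | one a b k v hr hb ih =>
    rcases ih with hlt | ⟨l, v1, v2, k1, k2, rfl, h1, h2, h3⟩
    · by_cases hab : a ∈ Rch S b
      · right
        obtain ⟨k', v', h'⟩ := hab
        exact ⟨a, 0, v + 1, 0, _, by omega, Cx.hole, Der.one a b k v hr hb,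
          ⟨_, _, Nat.succ_pos _, Cx.one a b _ _ hr h'⟩⟩
      · left
        have hsub : insert a (Rch S b) ⊆ Rch S a := by
          intro x hx
          rcases hx with rfl | hx
          · exact Rch.self _
          · exact Rch.sub_of ⟨1, 1, Cx.one a b 0 0 hr Cx.hole⟩ hx
        have h1 := Set.ncard_le_ncard hsub (Set.toFinite _)
        rw [Set.ncard_insert_of_notMem hab (Set.toFinite _)] at h1
        calc v + 1 < 2 ^ (Rch S b).ncard + 1 := by omega
          _ ≤ 2 ^ (Rch S b).ncard + 2 ^ (Rch S b).ncard :=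
            Nat.add_le_add_left Nat.one_le_two_pow _
          _ = 2 ^ ((Rch S b).ncard + 1) := by rw [pow_succ]; ring
          _ ≤ 2 ^ (Rch S a).ncard := Nat.pow_le_pow_right (by norm_num) h1
    · right
      exact ⟨l, v1 + 1, v2, _, k2, by omega, Cx.one a b _ _ hr h1, h2, h3⟩
  | two a b c k1 k2 v1 v2 hr hb hc ihb ihc =>
    by_cases hG : Good S a
    · right
      exact ⟨a, 0, v1 + v2, 0, _, by omega, Cx.hole, Der.two a b c _ _ _ _ hr hb hc, hG⟩
    rcases ihb with hltb | ⟨l, u1, u2, j1, j2, rfl, h1, h2, h3⟩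
    · rcases ihc with hltc | ⟨l, u1, u2, j1, j2, rfl, h1, h2, h3⟩
      · left
        have hba : b ∈ Rch S a := ⟨_, _, Cx.left a b c 0 k2 0 v2 hr Cx.hole hc⟩
        have hca : c ∈ Rch S a := ⟨_, _, Cx.right a b c k1 0 v1 0 hr hb Cx.hole⟩
        have hlb : (Rch S b).ncard ≤ (Rch S a).ncard :=
          Set.ncard_le_ncard (Rch.sub_of hba) (Set.toFinite _)
        have hlc : (Rch S c).ncard ≤ (Rch S a).ncard :=
          Set.ncard_le_ncard (Rch.sub_of hca) (Set.toFinite _)
        by_cases hab : a ∈ Rch S b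
        · obtain ⟨k', v', h'⟩ := hab
          have hv2 : v2 = 0 := by
            by_contra hne
            exact hG ⟨_, _, by omega, Cx.left a b c _ _ _ _ hr h' hc⟩
          rw [hv2, Nat.add_zero]
          exact hltb.trans_le (Nat.pow_le_pow_right (by norm_num) hlb)
        · by_cases hac : a ∈ Rch S c
          · obtain ⟨k', v', h'⟩ := hac
            have hv1 : v1 = 0 := by
              by_contra hne
              exact hG ⟨_, _, by omega, Cx.right a b c _ _ _ _ hr hb h'⟩
            rw [hv1, Nat.zero_add]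
            exact hltc.trans_le (Nat.pow_le_pow_right (by norm_num) hlc)
          · have e1 : (Rch S b).ncard + 1 ≤ (Rch S a).ncard := by
              have hsub : insert a (Rch S b) ⊆ Rch S a := by
                intro x hx
                rcases hx with rfl | hx
                · exact Rch.self _
                · exact Rch.sub_of hba hx
              have h1 := Set.ncard_le_ncard hsub (Set.toFinite _)
              rwa [Set.ncard_insert_of_notMem hab (Set.toFinite _)] at h1
            have e2 : (Rch S c).ncard + 1 ≤ (Rch S a).ncard := by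
              have hsub : insert a (Rch S c) ⊆ Rch S a := by
                intro x hx
                rcases hx with rfl | hx
                · exact Rch.self _
                · exact Rch.sub_of hca hx
              have h1 := Set.ncard_le_ncard hsub (Set.toFinite _)
              rwa [Set.ncard_insert_of_notMem hac (Set.toFinite _)] at h1
            obtain ⟨N, hN⟩ : ∃ N, (Rch S a).ncard = N + 1 := ⟨(Rch S a).ncard - 1, by omega⟩
            have h1 : 2 ^ (Rch S b).ncard ≤ 2 ^ N := Nat.pow_le_pow_right (by norm_num) (by omega)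
            have h2 : 2 ^ (Rch S c).ncard ≤ 2 ^ N := Nat.pow_le_pow_right (by norm_num) (by omega)
            rw [hN, pow_succ]
            omega
      · right
        exact ⟨l, v1 + u1, u2, _, j2, by omega, Cx.right a b c _ _ _ _ hr hb h1, h2, h3⟩
    · right
      exact ⟨l, u1 + v2, u2, _, j2, by omega, Cx.left a b c _ _ _ _ hr h1 hc, h2, h3⟩

variable (S) in
/-- Unary context-free systems: derivable weights can be increased by multiples of one of at most
`card ι` numbers, each at most `2 ^ (2 * card ι)`. -/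
theorem unary [Fintype ι] : ∃ c : ι → ℕ, (∀ l, 0 < c l ∧ c l ≤ 2 ^ (2 * Fintype.card ι)) ∧
    ∀ k a v, Der S k a v → 2 ^ Fintype.card ι ≤ v → ∃ l, ∀ j, ∃ k', Der S k' a (v + j * c l) := by
  classical
  let c : ι → ℕ := fun l => if h : Good S l then
    Classical.choose (Classical.choose_spec (loop_weight h)) else 1
  have hc : ∀ l, (h : Good S l) → 0 < c l ∧ c l ≤ 2 ^ (2 * Fintype.card ι) ∧
      ∃ k, Cx S l k l (c l) := by
    intro l h
    have e : c l = Classical.choose (Classical.choose_spec (loop_weight h)) := dif_pos h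
    have := Classical.choose_spec (Classical.choose_spec (loop_weight h))
    rw [← e] at this
    exact ⟨this.1, this.2.1, _, this.2.2⟩
  refine ⟨c, ?_, ?_⟩
  · intro l
    by_cases h : Good S l
    · exact ⟨(hc l h).1, (hc l h).2.1⟩
    · have e : c l = 1 := dif_neg h
      rw [e]
      exact ⟨one_pos, Nat.one_le_two_pow⟩
  · intro k a v h hv
    rcases dichotomy h with hlt | ⟨l, v1, v2, k1, k2, rfl, h1, h2, h3⟩
    · exfalso
      have : (Rch S a).ncard ≤ Fintype.card ι := by
        rw [← Nat.card_eq_fintype_card]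
        exact Set.ncard_le_card _
      have := Nat.pow_le_pow_right (show 0 < 2 by norm_num) this
      omega
    · refine ⟨l, fun j => ?_⟩
      obtain ⟨_, _, k3, h4⟩ := hc l h3
      obtain ⟨k4, h5⟩ := h4.iter j
      obtain ⟨k5, h6⟩ := h1.trans h5
      obtain ⟨k6, h7⟩ := h6.der h2
      exact ⟨k6, by rw [show v1 + v2 + j * c l = v1 + j * c l + v2 by ring]; exact h7⟩

end Pool.Agent.TH297.PG
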