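import Mathlib
import Pool.Agent.TH297.PG.B
import Pool.Agent.TH297.PK.I
set_option autoImplicit false

namespace Pool.Agent.TH297.PG

open Pool.Agent.Results.MP_5ca50a_lc.SmallExponents Pool.Agent.TH297.PK

section
variable {α : Type} {n : ℕ} (W : ZMod n → α)

/-- The word read from position `i` of length `v` along the periodic word `W`. -/
def seg (i : ZMod n) : ℕ → List α
  | 0 => []
  | v + 1 => W i :: seg (i + 1) v

theorem seg_add (i : ZMod n) (v1 v2 : ℕ) :
    seg W i (v1 + v2) = seg W i v1 ++ seg W (i + (v1 : ZMod n)) v2 := by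
  induction v1 generalizing i with
  | zero => simp [seg]
  | succ v1 ih =>
    rw [Nat.add_right_comm, seg, seg, ih, List.cons_append]
    congr 3
    push_cast
    ring

theorem seg_length (i : ZMod n) (v : ℕ) : (seg W i v).length = v := by
  induction v generalizing i with
  | zero => rfl
  | succ v ih => rw [seg, List.length_cons, ih]

variable (g : ContextFreeGrammar α)

/-- The unary system of a grammar and a periodic word. -/
def sysG : US (St g × ZMod n × ZMod n) where
  R0 a := a.1.1 = [] ∧ a.2.2 = 0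
  R1 a b := a.1.1 = Symbol.terminal (W a.2.1) :: b.1.1 ∧ b.2.1 = a.2.1 + 1 ∧ a.2.2 = b.2.2 + 1
  R2 a b c := ∃ r ∈ g.rules, a.1.1 = Symbol.nonterminal r.input :: c.1.1 ∧ b.1.1 = r.output ∧
    b.2.1 = a.2.1 ∧ c.2.1 = a.2.1 + b.2.2 ∧ a.2.2 = b.2.2 + c.2.2

variable {W g}

theorem sound {k : ℕ} {a : St g × ZMod n × ZMod n} {v : ℕ} (h : Der (sysG W g) k a v) :
    Gen g a.1.1 (seg W a.2.1 v) ∧ (v : ZMod n) = a.2.2 := by
  induction h with
  | zero a h =>
    obtain ⟨h1, h2⟩ := h
    rw [h1, h2]
    exact ⟨Gen.nil, by simp⟩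
  | one a b k v hr _ ih =>
    obtain ⟨h1, h2, h3⟩ := hr
    refine ⟨?_, ?_⟩
    · rw [h1, seg, ← h2]
      exact Gen.term _ ih.1
    · rw [h3, ← ih.2]; push_cast; ring
  | two a b c k1 k2 v1 v2 hr _ _ ih1 ih2 =>
    obtain ⟨r, hr, h1, h2, h3, h4, h5⟩ := hr
    refine ⟨?_, ?_⟩
    · rw [h1, seg_add, ih1.2, ← h4, ← h3]
      refine Gen.nt r hr ?_ ih2.1
      rw [← h2]; exact ih1.1
    · rw [h5, ← ih1.2, ← ih2.2]; push_cast; ring

theorem complete {s : List (Symbol α g.NT)} {w : List α} (h : Gen g s w) :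
    ∀ (hs : s ∈ St g) (i : ZMod n) (v : ℕ), w = seg W i v →
      ∃ k, Der (sysG W g) k (⟨s, hs⟩, i, (v : ZMod n)) v := by
  induction h with
  | nil =>
    intro hs i v he
    have hv : v = 0 := by
      have := congrArg List.length he
      rw [seg_length] at this
      simpa using this.symm
    subst hv
    exact ⟨0, Der.zero _ ⟨rfl, by simp⟩⟩
  | @term a s w h ih =>
    intro hs i v he
    rcases v with _ | v
    · simp [seg] at he
    · rw [seg, List.cons.injEq] at he
      obtain ⟨rfl, he⟩ := he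
      have hs' : s ∈ St g := by
        rcases St.ofInner (g := g) (List.suffix_cons _ _).isInfix hs (by simp) with h' | h'
        · exact h'
        · rw [h']; exact St.nil_mem hs
      obtain ⟨k, hk⟩ := ih hs' (i + 1) v he
      refine ⟨_, Der.one _ _ _ _ ?_ hk⟩
      exact ⟨rfl, rfl, by push_cast; rfl⟩
  | @nt r hr s w1 w2 h1 h2 ih1 ih2 =>
    intro hs i v he
    have hlen : v = w1.length + w2.length := by
      have := congrArg List.length he
      rw [seg_length, List.length_append] at this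
      exact this.symm
    subst hlen
    rw [seg_add] at he
    obtain ⟨e1, e2⟩ := List.append_inj he (by rw [seg_length])
    have hs' : s ∈ St g := by
      rcases St.ofInner (g := g) (List.suffix_cons _ _).isInfix hs (by simp) with h' | h'
      · exact h'
      · rw [h']; exact St.nil_mem hs
    have ho : r.output ∈ St g := Or.inr ⟨r, hr, List.infix_refl _⟩
    obtain ⟨k1, hk1⟩ := ih1 ho i _ e1
    obtain ⟨k2, hk2⟩ := ih2 hs' _ _ e2
    refine ⟨_, Der.two _ _ _ _ _ _ _ ?_ hk1 hk2⟩
    exact ⟨r, hr, rfl, rfl, rfl, rfl, by push_cast; rfl⟩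

end

/-- Consequence for languages: periodic words. -/
theorem periodic {α : Type} (g : ContextFreeGrammar α) : ∃ A : ℕ, ∀ (n : ℕ) (_ : 0 < n)
    (W : ZMod n → α), ∃ (N : ℕ) (_ : N ≤ A * n ^ 2) (c : Fin N → ℕ),
      (∀ l, 0 < c l ∧ c l ≤ 2 ^ (2 * (A * n ^ 2))) ∧
      ∀ M : ℕ, 2 ^ (A * n ^ 2) ≤ n * M → seg W 0 (n * M) ∈ g.language →
        ∃ l, ∀ j : ℕ, seg W 0 (n * (M + j * c l)) ∈ g.language := by
  classical
  have : Fintype (St g) := Fintype.ofFinite _
  refine ⟨Fintype.card (St g), ?_⟩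
  intro n hn W
  have : NeZero n := ⟨hn.ne'⟩
  obtain ⟨c, hc1, hc2⟩ := unary (sysG W g)
  have hcard : Fintype.card (St g × ZMod n × ZMod n) = Fintype.card (St g) * n ^ 2 := by
    rw [Fintype.card_prod, Fintype.card_prod, ZMod.card]; ring
  let e := Fintype.equivFin (St g × ZMod n × ZMod n)
  refine ⟨Fintype.card (St g × ZMod n × ZMod n), hcard.le, fun l => c (e.symm l), ?_, ?_⟩
  · intro l
    have := hc1 (e.symm l)
    refine ⟨this.1, this.2.trans ?_⟩
    rw [hcard]
  · intro M hM hmem
    rw [mem_language_iff_genN] at hmem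
    obtain ⟨o, ho, hg⟩ := hmem
    have hst : o ∈ St g := Or.inr ⟨_, ho, List.infix_refl _⟩
    obtain ⟨k, hk⟩ := complete (W := W) hg hst 0 (n * M) rfl
    obtain ⟨l, hl⟩ := hc2 _ _ _ hk (by rw [hcard]; exact hM)
    refine ⟨e l, fun j => ?_⟩
    obtain ⟨k', hk'⟩ := hl (n * j)
    have h1 := (sound hk').1
    rw [mem_language_iff_genN]
    refine ⟨o, ho, ?_⟩
    simp only [Equiv.symm_apply_apply]
    have : n * (M + j * c l) = n * M + n * j * c l := by ring
    rw [this]
    exact h1

section
variable {α : Type}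

/-- The periodic word of a nonempty word. -/
def per (w : List α) (hw : 0 < w.length) : ZMod w.length → α :=
  haveI : NeZero w.length := ⟨hw.ne'⟩
  fun i => w.get ⟨i.val, ZMod.val_lt i⟩

theorem seg_per (w : List α) (hw : 0 < w.length) : seg (per w hw) 0 w.length = w := by
  have : NeZero w.length := ⟨hw.ne'⟩
  have key : ∀ t j : ℕ, j + t = w.length → seg (per w hw) (j : ZMod w.length) t = w.drop j := by
    intro t
    induction t with
    | zero =>
      intro j hj
      have : j = w.length := by omega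
      rw [this, List.drop_length]; rfl
    | succ t ih =>
      intro j hj
      have hlt : j < w.length := by omega
      have h1 := ih (j + 1) (by omega)
      rw [seg, List.drop_eq_getElem_cons hlt]
      congr 1
      · show w.get ⟨(j : ZMod w.length).val, _⟩ = w[j]
        have : (j : ZMod w.length).val = j := by rw [ZMod.val_natCast, Nat.mod_eq_of_lt hlt]
        simp only [List.get_eq_getElem, this]
      · rw [← h1]; push_cast; rfl
  have := key w.length 0 (by omega)
  simpa using this

theorem prod_seg {G : Type} [Group G] (f : α → G) (w : List α) (hw : 0 < w.length) (M : ℕ) :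
    ((seg (per w hw) 0 (w.length * M)).map f).prod = ((w.map f).prod) ^ M := by
  induction M with
  | zero => simp [seg]
  | succ M ih =>
    rw [Nat.mul_succ, seg_add, List.map_append, List.prod_append, ih, pow_succ]
    congr 1
    have : (0 : ZMod w.length) + ((w.length * M : ℕ) : ZMod w.length) = 0 := by
      push_cast
      rw [ZMod.natCast_self]; ring
    rw [this, seg_per]

end

/-- The group statement: numbers controlling the order. -/
theorem group_loops {G : Type} [Group G] {k : ℕ} (f : Fin k → G)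
    (h : Language.IsContextFree ({w : List (Fin k) | (w.map f).prod ≠ 1} : Language (Fin k))) :
    ∃ A : ℕ, ∀ w : List (Fin k), 0 < w.length →
      ∃ (N : ℕ) (_ : N ≤ A * w.length ^ 2) (c : Fin N → ℕ),
        (∀ l, 0 < c l ∧ c l ≤ 2 ^ (2 * (A * w.length ^ 2))) ∧
        ∀ M : ℕ, 2 ^ (A * w.length ^ 2) ≤ M → (w.map f).prod ^ M ≠ 1 →
          ∃ l, ∀ j : ℕ, (w.map f).prod ^ (M + j * c l) ≠ 1 := by
  obtain ⟨g, hg⟩ := h
  obtain ⟨A, hA⟩ := periodic g
  refine ⟨A, fun w hw => ?_⟩
  obtain ⟨N, hN, c, hc1, hc2⟩ := hA w.length hw (per w hw)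
  refine ⟨N, hN, c, hc1, fun M hM hne => ?_⟩
  have hmem : ∀ M, seg (per w hw) 0 (w.length * M) ∈ g.language ↔ (w.map f).prod ^ M ≠ 1 := by
    intro M
    rw [hg]
    show ((seg (per w hw) 0 (w.length * M)).map f).prod ≠ 1 ↔ _
    rw [prod_seg]
  obtain ⟨l, hl⟩ := hc2 M (hM.trans (Nat.le_mul_of_pos_left M hw)) ((hmem M).mpr hne)
  exact ⟨l, fun j => (hmem _).mp (hl j)⟩

end Pool.Agent.TH297.PG
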