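import Mathlib
import Pool.Agent.TH297.PG.C
set_option autoImplicit false

namespace Pool.Agent.TH297.PG

theorem exists_mul_add (M c m : ℕ) (hm : 0 < m) (h : Nat.gcd c m ∣ M) :
    ∃ j : ℕ, m ∣ M + j * c := by
  obtain ⟨x, hx⟩ := h
  have hb := Nat.gcd_eq_gcd_ab c m
  set u := Nat.gcdA c m
  set v := Nat.gcdB c m
  have hm' : (m : ℤ) ≠ 0 := by exact_mod_cast hm.ne'
  refine ⟨((-((x : ℤ) * u)) % m).toNat, ?_⟩
  have hj : ((((-((x : ℤ) * u)) % m).toNat : ℕ) : ℤ) = (-((x : ℤ) * u)) % m :=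
    Int.toNat_of_nonneg (Int.emod_nonneg _ hm')
  have h1 := Int.emod_add_mul_ediv (-((x : ℤ) * u)) m
  have hMx : (M : ℤ) = (Nat.gcd c m : ℤ) * x := by exact_mod_cast hx
  rw [← Int.natCast_dvd_natCast]
  refine ⟨x * v - ((-((x : ℤ) * u)) / m) * c, ?_⟩
  push_cast
  rw [hj, hMx, hb]
  have h2 : (-((x : ℤ) * u)) % m = -((x : ℤ) * u) - m * ((-((x : ℤ) * u)) / m) := by linarith
  rw [h2]
  ring

/-- Every prime power dividing the order divides one of the numbers of `group_loops`. -/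
theorem order_dvd {G : Type} [Group G] (γ : G) (hfin : IsOfFinOrder γ) {N T : ℕ} (c : Fin N → ℕ)
    (hc2 : ∀ M : ℕ, T ≤ M → γ ^ M ≠ 1 → ∃ l, ∀ j : ℕ, γ ^ (M + j * c l) ≠ 1)
    (q a : ℕ) (hq : q.Prime) (ha : 0 < a) (hdvd : q ^ a ∣ orderOf γ) : ∃ l, q ^ a ∣ c l := by
  set m := orderOf γ with hm_def
  have hm : 0 < m := hfin.orderOf_pos
  have hqm : q ∣ m := (dvd_pow_self q ha.ne').trans hdvd
  obtain ⟨m', hm'⟩ := hqm
  have hm'0 : 0 < m' := by
    rcases Nat.eq_zero_or_pos m' with h | h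
    · rw [h] at hm'; omega
    · exact h
  have hlt : m' < m := by
    rw [hm']
    exact lt_mul_of_one_lt_left hm'0 hq.one_lt
  have hMne : γ ^ (m' + m * T) ≠ 1 := by
    intro h
    have h1 := orderOf_dvd_of_pow_eq_one h
    rw [← hm_def] at h1
    have h2 : m ∣ m' := (Nat.dvd_add_left (dvd_mul_right m T)).mp h1
    exact absurd (Nat.le_of_dvd hm'0 h2) (by omega)
  obtain ⟨l, hl⟩ := hc2 (m' + m * T) (by
    have : 1 * T ≤ m * T := Nat.mul_le_mul_right T hm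
    omega) hMne
  have hnd : ¬ Nat.gcd (c l) m ∣ m' := by
    intro hd
    obtain ⟨j, hj⟩ := exists_mul_add (m' + m * T) (c l) m hm
      ((Nat.dvd_add_right hd).mpr ((Nat.gcd_dvd_right _ _).trans (dvd_mul_right m T)))
    exact hl j (orderOf_dvd_iff_pow_eq_one.mp hj)
  obtain ⟨e, he⟩ := Nat.gcd_dvd_right (c l) m
  have hqe : ¬ q ∣ e := by
    rintro ⟨e', rfl⟩
    apply hnd
    refine ⟨e', ?_⟩
    have h1 : q * m' = q * (Nat.gcd (c l) m * e') := by
      rw [← hm']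
      calc m = Nat.gcd (c l) m * (q * e') := he
        _ = q * (Nat.gcd (c l) m * e') := by ring
    exact Nat.eq_of_mul_eq_mul_left hq.pos h1
  have hcop : Nat.Coprime (q ^ a) e :=
    Nat.Coprime.pow_left a ((Nat.Prime.coprime_iff_not_dvd hq).mpr hqe)
  have h3 : q ^ a ∣ Nat.gcd (c l) m := by
    rw [he] at hdvd
    exact hcop.dvd_of_dvd_mul_right hdvd
  exact ⟨l, h3.trans (Nat.gcd_dvd_left _ _)⟩

end Pool.Agent.TH297.PG
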